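import Mathlib
import Pool.Graph.R_seed8.H521R4.RB.Final

set_option autoImplicit false

namespace Pool.Agent.Results.MP_78d095_pr.TotalVariation

open Pool.H521RB Classical

section Defs
variable {V : Type} [Fintype V] [DecidableEq V]

/-- Transition matrix of the lazy random walk with edge weights `w`. -/
noncomputable def lazyWalk (w : V → V → ℝ) : Matrix V V ℝ :=
  Matrix.of (fun a b : V => (if a = b then (1 : ℝ) / 2 else 0) + w a b / (2 * ∑ z : V, w a z))

/-- Stationary law of the random walk with edge weights `w`. -/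
noncomputable def stat (w : V → V → ℝ) (y : V) : ℝ :=
  (∑ z : V, w y z) / (∑ a : V, ∑ b : V, w a b)

/-- The weight function identically one on the edges of `G`. -/
noncomputable def unitWeight (G : SimpleGraph V) : V → V → ℝ :=
  fun a b => if G.Adj a b then (1 : ℝ) else 0

/-- The lazy walk with weights `w` is uniformly mixed at time `t`: `t_∞ ≤ t`. -/
def UniformlyMixed (w : V → V → ℝ) (t : ℕ) : Prop :=
  ∀ x y : V, |(lazyWalk w ^ t) x y / stat w y - 1| ≤ 1 / 4

end Defs

section Gen
variable {V : Type} [Fintype V] [DecidableEq V]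

theorem lazy_symm (w : V → V → ℝ) (hs : ∀ a b, w a b = w b a) (D : ℝ)
    (hw : ∀ a, ∑ b, w a b = D) : (lazyWalk w).transpose = lazyWalk w := by
  ext a b
  simp only [lazyWalk, Matrix.transpose_apply, Matrix.of_apply, hw]
  rw [hs b a]
  congr 1
  simp only [eq_comm]

theorem lazy_pow_symm (w : V → V → ℝ) (hs : ∀ a b, w a b = w b a) (D : ℝ)
    (hw : ∀ a, ∑ b, w a b = D) (t : ℕ) (a b : V) :
    (lazyWalk w ^ t) a b = (lazyWalk w ^ t) b a := by
  have h : (lazyWalk w ^ t).transpose = lazyWalk w ^ t := by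
    rw [Matrix.transpose_pow, lazy_symm w hs D hw]
  conv_lhs => rw [← h]
  rfl

theorem lazy_row (w : V → V → ℝ) (D : ℝ) (hD : 0 < D)
    (hw : ∀ a, ∑ b, w a b = D) (t : ℕ) (a : V) : ∑ b, (lazyWalk w ^ t) a b = 1 := by
  induction t generalizing a with
  | zero => simp [Matrix.one_apply]
  | succ t ih =>
    rw [pow_succ]
    simp_rw [Matrix.mul_apply]
    rw [Finset.sum_comm]
    have h1 : ∀ c, ∑ b, (lazyWalk w) c b = 1 := by
      intro c
      show ∑ b, ((if c = b then (1 : ℝ) / 2 else 0) + w c b / (2 * ∑ z, w c z)) = 1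
      rw [Finset.sum_add_distrib, ← Finset.sum_div, hw]
      simp
      field_simp
      norm_num
    simp_rw [← Finset.mul_sum, h1, mul_one]
    exact ih a

omit [DecidableEq V] in
theorem stat_eq (w : V → V → ℝ) (D : ℝ) (hD : 0 < D) (hw : ∀ a, ∑ b, w a b = D) (y : V) :
    stat w y = 1 / (Fintype.card V : ℝ) := by
  have hN : (0 : ℝ) < Fintype.card V := by
    have : 0 < Fintype.card V := Fintype.card_pos_iff.mpr ⟨y⟩
    exact_mod_cast this
  unfold stat
  simp only [hw]
  rw [Finset.sum_const, Finset.card_univ, nsmul_eq_mul]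
  field_simp

/-- `L²` mixing at time `t` gives uniform mixing at time `2 t` (constant weighted degrees). -/
theorem uniform_of_mixF (w : V → V → ℝ) (hs : ∀ a b, w a b = w b a) (D : ℝ) (hD : 0 < D)
    (hw : ∀ a, ∑ b, w a b = D) (t : ℕ) (hm : MixF w t) : UniformlyMixed w (2 * t) := by
  intro x y
  have hN : (0 : ℝ) < Fintype.card V := by
    have : 0 < Fintype.card V := Fintype.card_pos_iff.mpr ⟨x⟩
    exact_mod_cast this
  rw [stat_eq w D hD hw]
  set N : ℝ := (Fintype.card V : ℝ) with hNdef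
  set Q := lazyWalk w ^ t with hQ
  have hl2 : ∀ x : V, N * ∑ z, (Q x z - 1 / N) ^ 2 ≤ 1 / 4 := by
    intro x
    have h1 : ∑ z : V, stat w z * (Q x z / stat w z - 1) ^ 2 ≤ 1 / 4 := hm x
    simp only [stat_eq w D hD hw] at h1
    refine le_trans (le_of_eq ?_) h1
    rw [Finset.mul_sum]
    refine Finset.sum_congr rfl fun z _ => ?_
    rw [← hNdef]
    field_simp
  have hprod : (lazyWalk w ^ (2 * t)) x y / (1 / N) - 1 =
      N * ∑ z, (Q x z - 1 / N) * (Q y z - 1 / N) := by
    rw [two_mul, pow_add, Matrix.mul_apply, ← hQ]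
    have h2 : ∀ z, Q x z * Q z y =
        (Q x z - 1 / N) * (Q y z - 1 / N) + Q x z / N + Q y z / N - 1 / N ^ 2 := by
      intro z
      rw [show Q z y = Q y z from lazy_pow_symm w hs D hw t z y]
      field_simp
      ring
    simp_rw [h2]
    rw [Finset.sum_sub_distrib, Finset.sum_add_distrib, Finset.sum_add_distrib,
      ← Finset.sum_div, ← Finset.sum_div, lazy_row w D hD hw, lazy_row w D hD hw,
      Finset.sum_const, Finset.card_univ, nsmul_eq_mul, ← hNdef]
    generalize ∑ z, (Q x z - 1 / N) * (Q y z - 1 / N) = S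
    field_simp
    ring
  rw [hprod]
  have cs := Finset.sum_mul_sq_le_sq_mul_sq Finset.univ (fun z => Q x z - 1 / N)
    (fun z => Q y z - 1 / N)
  have hsq : (N * ∑ z, (Q x z - 1 / N) * (Q y z - 1 / N)) ^ 2 ≤ (1 / 4) ^ 2 := by
    calc (N * ∑ z, (Q x z - 1 / N) * (Q y z - 1 / N)) ^ 2
        = N ^ 2 * (∑ z, (Q x z - 1 / N) * (Q y z - 1 / N)) ^ 2 := by ring
      _ ≤ N ^ 2 * ((∑ z, (Q x z - 1 / N) ^ 2) * ∑ z, (Q y z - 1 / N) ^ 2) := by gcongr
      _ = (N * ∑ z, (Q x z - 1 / N) ^ 2) * (N * ∑ z, (Q y z - 1 / N) ^ 2) := by ring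
      _ ≤ (1 / 4) * (1 / 4) := mul_le_mul (hl2 x) (hl2 y) (by positivity) (by norm_num)
      _ = (1 / 4) ^ 2 := by norm_num
  exact abs_le_of_sq_le_sq hsq (by norm_num)

theorem lazy_pow_iter (w : V → V → ℝ) (f : V → ℝ) (t : ℕ) (x : V) :
    ∑ y, (lazyWalk w ^ t) x y * f y = ((fun g => (lazyWalk w).mulVec g)^[t] f) x := by
  rw [← Pert.pow_mulVec_iter]
  rfl

end Gen

section P
variable {ι : Type} [Fintype ι] [DecidableEq ι] {nn : ι → ℕ}
open Pert

/-- The neutral perturbation: constant weighted degrees, and its walk projects to `TT`. -/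
theorem pert_exists' (C : ∀ p : ι, Code (nn p)) (q : ℕ) (K : ℝ) (hK : 2 ≤ K)
    (hn : ∀ p, 2 ≤ nn p) (hq : 2 * K * (Fintype.card (EG nn) : ℝ) ≤ (q : ℝ) - 1) (hq4 : 4 ≤ q)
    (we : EG nn → GG nn → ℝ) (hsymm : ∀ e x, we e (x + hh C e) = we e x)
    (hb : ∀ e x, K⁻¹ ≤ we e x ∧ we e x ≤ K) :
    ∃ w : (GG nn × Fin q) → (GG nn × Fin q) → ℝ,
      (∀ a b, w a b = w b a) ∧
      (∀ a b, (gr C q).Adj a b → K⁻¹ ≤ w a b ∧ w a b ≤ K) ∧
      (∀ a b, ¬ (gr C q).Adj a b → w a b = 0) ∧
      (∀ a, ∑ b, w a b = (DD nn q : ℝ)) ∧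
      (∀ (t : ℕ) (F : GG nn → ℝ) (x : GG nn) (j : Fin q),
        ∑ y : GG nn × Fin q, (lazyWalk w ^ t) (x, j) y * F y.1 = ((TT C q we)^[t] F) x) := by
  have hqr : (4:ℝ) ≤ q := by exact_mod_cast hq4
  have hq1 : (0:ℝ) < (q:ℝ) - 1 := by linarith
  have hDD : (DD nn q : ℝ) = (Fintype.card (EG nn) : ℝ) + ((q:ℝ) - 1) := by
    unfold DD
    rw [Nat.cast_add, Nat.cast_sub (by omega)]
    simp
  have hcard : (0:ℝ) ≤ (Fintype.card (EG nn) : ℝ) := Nat.cast_nonneg _
  have hD : (0:ℝ) < (DD nn q : ℝ) := by rw [hDD]; linarith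
  have hK0 : (0:ℝ) < K := by linarith
  have hKinv : K⁻¹ ≤ 1 / 2 := by
    rw [inv_le_comm₀ hK0 (by norm_num)]
    simpa using hK
  have hKinv0 : 0 < K⁻¹ := inv_pos.mpr hK0
  have hsle : ∀ x, ∑ e, we e x ≤ K * (Fintype.card (EG nn) : ℝ) := by
    intro x
    calc ∑ e, we e x ≤ ∑ _e : EG nn, K := Finset.sum_le_sum fun e _ => (hb e x).2
      _ = K * (Fintype.card (EG nn) : ℝ) := by
        rw [Finset.sum_const, Finset.card_univ, nsmul_eq_mul, mul_comm]
  have hsge : ∀ x, 0 ≤ ∑ e, we e x := fun x =>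
    Finset.sum_nonneg fun e _ => hKinv0.le.trans (hb e x).1
  have hw0 : ∀ x, K⁻¹ ≤ w0 q we x ∧ w0 q we x ≤ K := by
    intro x
    unfold w0
    rw [hDD]
    have h1 := hsle x
    have h2 := hsge x
    constructor
    · rw [le_div_iff₀ hq1]
      nlinarith
    · rw [div_le_iff₀ hq1]
      nlinarith
  have hsumw : ∀ a : GG nn × Fin q, ∑ b, Pert.ww C q we a b = (DD nn q : ℝ) := by
    intro a
    have := ww_sum C q we a (fun _ => 1)
    simp only [mul_one] at this
    rw [this]
    unfold w0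
    field_simp
    ring
  refine ⟨Pert.ww C q we, ww_symm C q we hsymm, ?_, ?_, hsumw, ?_⟩
  · rintro a b (⟨h1, h2⟩ | ⟨h1, h2, e, he⟩)
    · have : Pert.ww C q we a b = w0 q we a.1 := by
        unfold Pert.ww
        rw [if_pos ⟨h1, h2⟩, Finset.sum_eq_zero, zero_add]
        intro e _
        rw [if_neg]
        intro h
        apply h2
        rw [h]
      rw [this]
      exact hw0 _
    · have : Pert.ww C q we a b = we e a.1 := by
        unfold Pert.ww
        rw [if_neg (fun h => h.2 h1), add_zero, Finset.sum_eq_single e]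
        · rw [if_pos (show b = (a.1 + hh C e, a.2) from Prod.ext he h1.symm)]
        · intro e' _ hne
          rw [if_neg]
          intro h
          apply hne
          have h3 : b.1 = a.1 + hh C e' := by rw [h]
          rw [he] at h3
          exact (hh_inj C hn e e' (add_left_cancel h3)).symm
        · intro h
          exact absurd (Finset.mem_univ _) h
      rw [this]
      exact hb _ _
  · intro a b hnadj
    unfold Pert.ww
    rw [if_neg (fun h => hnadj (Or.inl h)), add_zero]
    apply Finset.sum_eq_zero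
    intro e _
    rw [if_neg]
    intro h
    apply hnadj
    refine Or.inr ⟨by rw [h], ?_, e, by rw [h]⟩
    intro h4
    apply hh_ne_zero C hn e
    have h3 : b.1 = a.1 + hh C e := by rw [h]
    rw [← h4] at h3
    simpa using h3.symm
  · intro t F x j
    rw [lazy_pow_iter (Pert.ww C q we) (fun y => F y.1) t (x, j)]
    have hstep : ∀ g : GG nn → ℝ,
        (lazyWalk (Pert.ww C q we)).mulVec (fun y => g y.1)
        = fun y => TT C q we g y.1 := by
      intro g
      funext a
      simp only [lazyWalk, Matrix.mulVec, dotProduct, Matrix.of_apply, add_mul]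
      rw [Finset.sum_add_distrib]
      have h1 : ∑ b : GG nn × Fin q, (if a = b then (1:ℝ)/2 else 0) * g b.1 = 1/2 * g a.1 := by
        simp
      have h2 : ∑ b : GG nn × Fin q, Pert.ww C q we a b / (2 * ∑ z : GG nn × Fin q, Pert.ww C q we a z) * g b.1
          = (1 / (2 * (DD nn q : ℝ))) * ∑ b, Pert.ww C q we a b * g b.1 := by
        rw [hsumw, Finset.mul_sum]
        apply Finset.sum_congr rfl
        intro b _
        ring
      rw [h1, h2, ww_sum]
      unfold TT w0
      have h3 : ∑ e : EG nn, we e a.1 * (g (a.1 + hh C e) - g a.1)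
          = ∑ e : EG nn, we e a.1 * g (a.1 + hh C e) - (∑ e : EG nn, we e a.1) * g a.1 := by
        rw [Finset.sum_mul, ← Finset.sum_sub_distrib]
        apply Finset.sum_congr rfl
        intro e _
        ring
      rw [h3]
      field_simp
      ring
    have hiter : ∀ s : ℕ, (fun g : GG nn × Fin q → ℝ =>
        (lazyWalk (Pert.ww C q we)).mulVec g)^[s] (fun y => F y.1)
        = fun y => ((TT C q we)^[s] F) y.1 := by
      intro s
      induction s with
      | zero => rfl
      | succ s ih =>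
        rw [Function.iterate_succ_apply', ih, hstep, Function.iterate_succ_apply']
    rw [hiter t]

end P

/-- Robustness fails, in the strongest sense and already for Cayley graphs of finite abelian groups:
for every `C₀` there are a connected translation-invariant graph on a finite abelian group `A`, a
`100`-bounded perturbation `w` of it with the same vertex weights (so the stationary law stays
uniform), and a time `t` such that the unweighted lazy walk is uniformly (`L^∞`) mixed at time `t`,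
while for every `s ≤ C₀ t` the total variation distance of the perturbed walk from its stationary
law is at least `89/100`: a set `B` of stationary mass at least `9/10` has probability at most
`1/100` at every time `s ≤ C₀ t` from one starting point. -/
theorem result (C₀ : ℝ) (hC₀ : 0 < C₀) :
    ∃ (A : Type) (_ : AddCommGroup A) (_ : Fintype A) (_ : DecidableEq A) (G : SimpleGraph A),
      G.Connected ∧
      (∀ g a b : A, G.Adj (g + a) (g + b) ↔ G.Adj a b) ∧
      ∃ w : A → A → ℝ,
        (∀ a b, w a b = w b a) ∧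
        (∀ a b, G.Adj a b → (100 : ℝ)⁻¹ ≤ w a b ∧ w a b ≤ 100) ∧
        (∀ a b, ¬ G.Adj a b → w a b = 0) ∧
        (∀ a, ∑ b, w a b = ∑ b, unitWeight G a b) ∧
        ∃ t : ℕ, UniformlyMixed (unitWeight G) t ∧
          ∃ (x : A) (B : Finset A), 9 / 10 ≤ ∑ y ∈ B, stat w y ∧
            ∀ s : ℕ, (s : ℝ) ≤ C₀ * (t : ℝ) → ∑ y ∈ B, (lazyWalk w ^ s) x y ≤ 1 / 100 := by
  obtain ⟨M, hM⟩ := exists_nat_ge (60000 * (8 * C₀ + 1) + 1)
  have hM1 : (0:ℝ) < M := by nlinarith
  have hM0 : 0 < M := by exact_mod_cast hM1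
  obtain ⟨J, hJ20, hsep, hEE⟩ := exists_J M hM0
  have hJ : ∀ i, 0 < J i := fun i => by have := hJ20 i; omega
  let C : ∀ p : Ix M, Code (300 * J p.1) := fun p =>
    Classical.choice (code_exists (300 * J p.1) (by have := hJ p.1; omega))
  set c : ℕ := Fintype.card (EG (fun p : Ix M => 300 * J p.1)) with hc
  set q : ℕ := 200 * c + 16 * (∑ p : Ix M, 300 * J p.1) + 10 with hq
  have : NeZero q := ⟨by omega⟩
  have hDD : DD (fun p : Ix M => 300 * J p.1) q = c + (q - 1) := rfl
  have hB : Big J q := by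
    refine ⟨?_, ?_, ?_⟩
    · rw [hDD]; have : 0 < c + (q - 1) := by omega
      exact_mod_cast this
    · rw [hDD, ← hc]
      have : 50 * c ≤ c + (q - 1) := by omega
      exact_mod_cast this
    · intro i
      rw [hDD]
      have h1 := card_EG_ge J i
      rw [← hc] at h1
      have : 500000 * J i ≤ c + (q - 1) := by omega
      exact_mod_cast this
  have hnn : ∀ p : Ix M, 2 ≤ 300 * J p.1 := fun p => by have := hJ p.1; omega
  have hmix : MixF (fun a b => if (gr C q).Adj a b then (1:ℝ) else 0)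
      (4 * DD (fun p : Ix M => 300 * J p.1) q) := by
    refine unpert_mix C q (by omega) ?_ ?_ (sum_small J hJ20) _ le_rfl
    · omega
    · rw [← hc]; omega
  obtain ⟨w, hw1, hw2, hw3, hw4, hw5⟩ := pert_exists' C q 100 (by norm_num)
    hnn (by
      rw [← hc]
      have : 200 * c + 1 ≤ q := by omega
      have : ((200 * c + 1 : ℕ) : ℝ) ≤ q := by exact_mod_cast this
      push_cast at this
      linarith) (by omega) (we J C) we_symm (we_bd hJ)
  have hunit : ∀ a, ∑ b, unitWeight (gr C q) a b = (DD (fun p : Ix M => 300 * J p.1) q : ℝ) :=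
    fun a => Up.W_row C q (by omega) hnn a
  let p0 : Ix M := (⟨M - 1, by omega⟩, false)
  have hD1 : (1:ℝ) ≤ (DD (fun p : Ix M => 300 * J p.1) q : ℝ) := by
    rw [hDD]; have : 1 ≤ c + (q - 1) := by omega
    exact_mod_cast this
  have hD0 : (0:ℝ) < (DD (fun p : Ix M => 300 * J p.1) q : ℝ) := by linarith
  refine ⟨GG (fun p : Ix M => 300 * J p.1) × Fin q, inferInstance, inferInstance, inferInstance,
    gr C q, gr_connected C q (by omega), ?_, w, hw1, hw2, hw3, ?_,
    2 * (4 * DD (fun p : Ix M => 300 * J p.1) q), ?_, (0, ⟨0, by omega⟩),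
    Finset.univ.filter (fun y => 16 * J p0.1 ≤ lv J C y.1 p0), ?_, ?_⟩
  · rintro g a b
    show ((g + a).1 = (g + b).1 ∧ (g + a).2 ≠ (g + b).2) ∨ ((g + a).2 = (g + b).2 ∧
      (g + a).1 ≠ (g + b).1 ∧ ∃ e : EG _, (g + b).1 = (g + a).1 + hh C e) ↔
      (a.1 = b.1 ∧ a.2 ≠ b.2) ∨ (a.2 = b.2 ∧ a.1 ≠ b.1 ∧ ∃ e : EG _, b.1 = a.1 + hh C e)
    simp only [Prod.fst_add, Prod.snd_add, add_right_inj, ne_eq, add_assoc]
  · intro a
    rw [hw4 a, hunit a]
  · exact uniform_of_mixF _ (fun a b => Up.W_symm C q a b) _ hD0 hunit _ hmix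
  · have hA := avg_big J hJ C p0
    have hq0 : (0 : ℝ) < q := by
      have : 0 < q := by omega
      exact_mod_cast this
    refine hA.trans (le_of_eq ?_)
    rw [Finset.sum_filter]
    simp only [stat_eq w _ hD0 hw4]
    rw [Fintype.sum_prod_type, Fintype.card_prod, Fintype.card_fin]
    rw [Finset.sum_div]
    refine Finset.sum_congr rfl fun x _ => ?_
    show (if 16 * J p0.1 ≤ lv J C x p0 then (1:ℝ) else 0) / _ =
      ∑ _y : Fin q, (if 16 * J p0.1 ≤ lv J C x p0 then
        1 / ((Fintype.card (GG (fun p : Ix M => 300 * J p.1)) * q : ℕ) : ℝ) else 0)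
    rw [Finset.sum_const, Finset.card_univ, Fintype.card_fin, nsmul_eq_mul]
    push_cast
    have hG : (0 : ℝ) < (Fintype.card (GG (fun p : Ix M => 300 * J p.1)) : ℝ) := by
      have : 0 < Fintype.card (GG (fun p : Ix M => 300 * J p.1)) := Fintype.card_pos
      exact_mod_cast this
    split_ifs
    · field_simp
    · simp
  · intro s hs
    have ht : (s : ℝ) ≤ (M:ℝ) * (DD (fun p : Ix M => 300 * J p.1) q : ℝ) / 60000 := by
      refine hs.trans ?_
      push_cast
      rw [le_div_iff₀ (by norm_num)]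
      have : (60000 * (8 * C₀ + 1)) * (DD (fun p : Ix M => 300 * J p.1) q : ℝ) ≤
          M * (DD (fun p : Ix M => 300 * J p.1) q : ℝ) :=
        mul_le_mul_of_nonneg_right (by linarith) (by linarith)
      nlinarith
    have hE := Ex_target (C := C) hM0 hJ20 hsep hEE hB (fun j hj => pow_est hj) _ ht p0 (by
      show (M - 1) + 1 = M; omega)
    have h5 := hw5 s (fun x => if 16 * J p0.1 ≤ lv J C x p0 then (1:ℝ) else 0) 0 ⟨0, by omega⟩
    unfold Ex at hE
    rw [← h5] at hE
    refine le_trans (le_of_eq ?_) hE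
    rw [Finset.sum_filter]
    refine Finset.sum_congr rfl fun y _ => ?_
    split_ifs <;> simp

end Pool.Agent.Results.MP_78d095_pr.TotalVariation
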